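import Pool.Agent.MP_887f27_pr.H69.Proc

/-! Summability of defects and the transfer between the two update rules. -/

namespace Pool.Agent.MP_887f27_pr.H80

open MeasureTheory ProbabilityTheory Set Filter
open scoped ENNReal
open Pool.Agent.MP_887f27_pr.H69

/-! Transfer. -/

lemma exists_perm : ∀ y : Dir → Bool, ∃ f : Dir → Dir,
    Function.Injective f ∧ ∀ a, rI (f a) y = rC a y := by
  unfold rI rC
  decide +kernel

/-- Relabelling of the marks that turns the rule `rC` into the rule `rI`. -/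
noncomputable def ff (y : Dir → Bool) : Dir → Dir := (exists_perm y).choose

lemma ff_inj (y : Dir → Bool) : Function.Injective (ff y) := (exists_perm y).choose_spec.1

lemma rI_ff (y : Dir → Bool) (a : Dir) : rI (ff y a) y = rC a y := (exists_perm y).choose_spec.2 a

/-- The neighbours of the ringing vertex just before the ring. -/
noncomputable def nb (ξ : Clk) (x : Cfg) (i : V × ℕ) (m : Mrk) : Dir → Bool :=
  fun d => valI rC ((ξ, m), x) (i.1 * g d) (tm (ξ i.1) i.2)

/-- The relabelled marks. -/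
noncomputable def Psi (ξ : Clk) (x : Cfg) (m : Mrk) : Mrk := fun i => ff (nb ξ x i m) (m i)

lemma measurable_nb (ξ : Clk) (x : Cfg) (i : V × ℕ) : Measurable (nb ξ x i) :=
  measurable_pi_lambda _ fun d => (measurable_valI rC (i.1 * g d)).comp
    (f := fun m : Mrk => (((ξ, m), x), tm (ξ i.1) i.2)) (by fun_prop)

lemma measurable_ff (ξ : Clk) (x : Cfg) (i : V × ℕ) (c : Dir) :
    Measurable fun m => ff (nb ξ x i m) c :=
  (measurable_of_countable fun y : Dir → Bool => ff y c).comp (measurable_nb ξ x i)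

lemma measurable_Psi (ξ : Clk) (x : Cfg) : Measurable (Psi ξ x) :=
  measurable_pi_lambda _ fun i =>
    (measurable_of_countable fun p : (Dir → Bool) × Dir => ff p.1 p.2).comp
      ((measurable_nb ξ x i).prodMk (measurable_pi_apply i))

lemma map_Psi (ξ : Clk) (x : Cfg) : muM.map (Psi ξ x) = muM := by
  classical
  refine map_tri (fun i : V × ℕ => tm (ξ i.1) i.2) (fun i m => ff (nb ξ x i m))
    (measurable_ff ξ x) (fun i m => ff_inj _) ?_
  intro i j a c hij
  congr 1
  funext d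
  refine valI_marks rC ξ _ _ x _ _ fun w n hn => ?_
  refine Function.update_of_ne (fun e => ?_) _ _
  subst e
  exact absurd hij (not_le.2 hn)

lemma val_Psi (ξ : Clk) (x : Cfg) (m : Mrk) : ∀ D v t, Ok ξ D v t →
    val rI ((ξ, Psi ξ x m), x) D v t = val rC ((ξ, m), x) D v t
  | 0, _, _, h => h.elim
  | D + 1, v, t, h => by
    simp only [val]
    split_ifs with hc
    · rfl
    · have h' := h.resolve_left hc
      have e1 : (fun d => val rI ((ξ, Psi ξ x m), x) D (v * g d) (tm (ξ v) (cnt (ξ v) t - 1))) =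
          nb ξ x (v, cnt (ξ v) t - 1) m := by
        funext d
        rw [val_Psi ξ x m D _ _ (h' d)]
        exact (valI_eq rC ((ξ, m), x) (h' d)).symm
      have e2 : (fun d => val rC ((ξ, m), x) D (v * g d) (tm (ξ v) (cnt (ξ v) t - 1))) =
          nb ξ x (v, cnt (ξ v) t - 1) m := by
        funext d
        exact (valI_eq rC ((ξ, m), x) (h' d)).symm
      rw [e1, e2]
      exact rI_ff _ _

lemma cfgI_Psi (ξ : Clk) (x : Cfg) (m : Mrk) (t : ℝ) :
    cfgI rI t ((ξ, Psi ξ x m), x) = cfgI rC t ((ξ, m), x) := by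
  funext v
  unfold cfgI valI
  congr 1
  refine propext (exists_congr fun D => and_congr_right fun h => ?_)
  rw [val_Psi ξ x m D v t h]

lemma lawI_eq (r : Rule) (q t : ℝ) {A : Set Cfg} (hA : MeasurableSet A) :
    lawI r q t A = ∫⁻ x, ∫⁻ ξ, muM {m | cfgI r t ((ξ, m), x) ∈ A} ∂muC ∂nu q := by
  have h1 : MeasurableSet {ω | cfgI r t ω ∈ A} := measurable_cfgI r t hA
  rw [lawI_apply r q t hA, PP, Measure.prod_apply_symm h1]
  refine lintegral_congr fun x => ?_
  rw [Measure.prod_apply (h1.preimage (by fun_prop))]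
  rfl

theorem transfer : TransferStmt := by
  intro _ q t
  refine Measure.ext fun A hA => ?_
  rw [lawI_eq rC q t hA, lawI_eq rI q t hA]
  refine lintegral_congr fun x => lintegral_congr fun ξ => ?_
  have h1 : MeasurableSet {m : Mrk | cfgI rI t ((ξ, m), x) ∈ A} :=
    (measurable_cfgI rI t hA).preimage (f := fun m : Mrk => (((ξ, m), x) : Om)) (by fun_prop)
  conv_rhs => rw [← map_Psi ξ x, Measure.map_apply (measurable_Psi ξ x) h1]
  congr 1
  ext m
  simp only [mem_preimage, mem_ofPred_eq, cfgI_Psi]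

/-! Defects. -/

section Pattern

variable {B : Finset V} {δ : V → Dir} {S : Cfg → Set V} {k : ℕ} {ω : Om}

lemma stay (hG : Good ω.1.1) (hP : Pat B δ S k ω) {w : V} (hw : w ∈ B)
    (hS : w ∉ S (cfgI rI k ω)) {t : ℝ} (h1 : (k : ℝ) ≤ t) (h2 : t ≤ k + 1) :
    valI rI ω w t = valI rI ω w k := by
  refine valI_congr_cnt rI ω (le_antisymm ?_ (cnt_mono (hG.2.1 w t) h1))
  rw [← (hP w hw).2.2 hS]
  exact cnt_mono (hG.2.1 w _) h2

lemma ring_ge (hG : Good ω.1.1) (w : V) : (k : ℝ) ≤ tm (ω.1.1 w) (cnt (ω.1.1 w) k) :=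
  le_tm_cnt (hG.2.1 w k)

lemma ring_lt (hP : Pat B δ S k ω) {w : V} (hw : w ∈ B) (hS : w ∈ S (cfgI rI k ω)) :
    tm (ω.1.1 w) (cnt (ω.1.1 w) k) < k + 1 :=
  tm_lt_of_lt_cnt (by rw [(hP w hw).2.1 hS]; omega)

lemma upd (hG : Good ω.1.1) (hP : Pat B δ S k ω) {w : V} (hw : w ∈ B)
    (hS : w ∈ S (cfgI rI k ω)) (hn : ∀ d, w * g d ∈ B ∧ w * g d ∉ S (cfgI rI k ω)) :
    valI rI ω w ((k : ℝ) + 1) = rI (δ w) fun d => valI rI ω (w * g d) k := by
  rw [valI_succ rI hG ((hP w hw).2.1 hS), (hP w hw).1]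
  congr 1
  funext d
  exact stay hG hP (hn d).1 (hn d).2 (ring_ge hG w) (ring_lt hP hw hS).le

end Pattern

lemma low_of_pat {δ : V → Dir} {k : ℕ} {ω : Om} {s : Bool} (hG : Good ω.1.1)
    (hP : Pat (ball 1) δ (fun _ => {1}) k ω) (hD : Dfc (sgn s (cfgI rI k ω)) 0 1) : Low k ω := by
  have h1 : (1 : V) ∈ ball 1 := by simp
  have hl := ring_lt hP h1 (mem_singleton _)
  refine ⟨hl, s, hD.1, hD.2.mono fun d hd => ?_⟩
  have h2 : g d ∉ ({1} : Set V) := fun e => by
    have := nrm_g d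
    rw [mem_singleton_iff.1 e] at this
    simp at this
  rw [stay hG hP (by simp) h2 (ring_ge hG 1) hl.le]
  simpa [Fw, sgn, cfgI] using hd

open Classical in
/-- The inward direction. -/
noncomputable def inw (w : V) : Dir :=
  if h : ∃ d, nrm (w * g d) + 1 = nrm w then h.choose else (0, true)

lemma inw_eq {v : V} {d : Dir} (h : nrm (v * g d) = nrm v + 1) : inw (v * g d) = rev d := by
  have h1 : nrm (v * g d * g (rev d)) + 1 = nrm (v * g d) := by rw [mul_g_rev, h]
  have h2 : ∃ d', nrm (v * g d * g d') + 1 = nrm (v * g d) := ⟨rev d, h1⟩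
  rw [inw, dif_pos h2]
  exact inward_unique h2.choose_spec h1

/-- The vertices on the sphere of radius `j + 1` whose spin is not `s`. -/
def Sph (s : Bool) (j : ℕ) (x : Cfg) : Set V := {w | nrm w = j + 1 ∧ x w ≠ s}

lemma ms_Sph (s : Bool) (j : ℕ) (w : V) : MeasurableSet {x | w ∈ Sph s j x} :=
  ((loc_const (nrm w = j + 1)).and (loc_coord w s).not).measurableSet

lemma fw_step {j k : ℕ} {ω : Om} {s : Bool} (hG : Good ω.1.1)
    (hP : Pat (ball (j + 2)) inw (Sph s j) k ω) : ∀ (m : ℕ) (v : V) (d : Dir),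
    nrm (v * g d) = nrm v + 1 → nrm v + m = j →
    Fw (sgn s (cfgI rI k ω)) (m + 1) v d → Fw (sgn s (cfgI rI ((k : ℝ) + 1) ω)) m v d := by
  have hst : ∀ w, nrm w ≤ j + 2 → w ∈ sgn s (cfgI rI k ω) → w ∈ sgn s (cfgI rI ((k : ℝ) + 1) ω) := by
    intro w h1 h2
    have := stay hG hP (mem_ball.2 h1) (fun h => h.2 h2) (t := (k : ℝ) + 1) (by linarith) le_rfl
    exact this.trans h2
  intro m
  induction m with
  | zero =>
    intro v d h1 h2 hF
    by_cases hw : v * g d ∈ sgn s (cfgI rI k ω)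
    · exact hst _ (by omega) hw
    · have hT : Two d (Fw (sgn s (cfgI rI k ω)) 0 (v * g d)) := hF.resolve_left hw
      have hu := upd hG hP (w := v * g d) (mem_ball.2 (by omega)) ⟨by omega, hw⟩ (fun d' => by
        have := nrm_step (v * g d) d'
        exact ⟨mem_ball.2 (by omega), fun h => by have := h.1; omega⟩)
      rw [inw_eq h1] at hu
      exact hu.trans (rI_two (s := s) hT)
  | succ m ih =>
    intro v d h1 h2 hF
    rcases hF with hw | hT
    · exact Or.inl (hst _ (by omega) hw)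
    · exact Or.inr (hT.mono fun d' hd' h => ih _ _ (outward h1 hd') (by omega) h)

lemma dfc_step {j k : ℕ} {ω : Om} {s : Bool} (hG : Good ω.1.1)
    (hP : Pat (ball (j + 2)) inw (Sph s j) k ω) (hD : Dfc (sgn s (cfgI rI k ω)) (j + 1) 1) :
    Dfc (sgn s (cfgI rI ((k : ℝ) + 1) ω)) j 1 := by
  refine ⟨fun h => hD.1 ?_, hD.2.mono fun d h => fw_step hG hP j 1 d (by simp) (by simp) h⟩
  have := stay hG hP (w := 1) (by simp) (fun h => by have := h.1; simp at this)
    (t := (k : ℝ) + 1) (by linarith) le_rfl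
  exact this.symm.trans h

lemma real_mono_good (hG : GoodAE) (q : ℝ) {A A' : Set Om}
    (h : ∀ ω : Om, Good ω.1.1 → ω ∈ A → ω ∈ A') : (PP q).real A ≤ (PP q).real A' :=
  ENNReal.toReal_mono (measure_ne_top _ _)
    (measure_mono_ae ((ae_good hG q).mono fun ω hω => h ω hω))

lemma ms_dfc (s : Bool) (j : ℕ) : MeasurableSet {x | Dfc (sgn s x) j 1} :=
  (loc_dfc (loc_sgn s) j 1).measurableSet

theorem defect : DefectStmt := by
  intro hG hE hP j
  induction j with
  | zero =>
    obtain ⟨c, hc, h⟩ := hP (ball 1)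
    refine ⟨1 / c, fun q s N => ?_⟩
    rw [le_div_iff₀ hc, mul_comm, Finset.mul_sum]
    refine le_trans (Finset.sum_le_sum fun k _ => ?_) (hE q N)
    refine (h (fun _ => (0, true)) (fun _ => {1}) (fun w => MeasurableSet.const _) q k _
      (ms_dfc s 0)).trans ?_
    exact real_mono_good hG q fun ω hω h' => low_of_pat hω h'.2 h'.1
  | succ j ih =>
    obtain ⟨C, hC⟩ := ih
    obtain ⟨c, hc, h⟩ := hP (ball (j + 2))
    refine ⟨C / c, fun q s N => ?_⟩
    rw [le_div_iff₀ hc, mul_comm, Finset.mul_sum]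
    refine le_trans ?_ (hC q s (N + 1))
    rw [Finset.sum_range_succ']
    refine le_trans (Finset.sum_le_sum fun k _ => ?_) (le_add_of_nonneg_right measureReal_nonneg)
    refine (h inw (Sph s j) (ms_Sph s j) q k _ (ms_dfc s (j + 1))).trans ?_
    rw [lawI_real rI q _ (ms_dfc s j)]
    push_cast
    exact real_mono_good hG q fun ω hω h' => dfc_step hω h'.2 h'.1

end Pool.Agent.MP_887f27_pr.H80
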